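import Pool.Agent.H307R2.LU

/-!
MP_3d0d30_nt (explicit bounds for high moments of the Riemann zeta function), Q2:
`M_k(T) ≤ T (log T)^(k^2)` holds for all real `k` and all `T > 1000` with `49 T ≤ (log T)^k`,
in particular for all `k ≥ 7` and `1000 < T ≤ k^k`.
-/

set_option autoImplicit false

open MeasureTheory Set

namespace Pool.Agent.Results.MP_3d0d30_nt.InitialRange

lemma sum_sqrt_le (N : ℕ) :
    ∑ n ∈ Finset.Icc 1 N, (n : ℝ) ^ (-(1 / 2 : ℝ)) ≤ 2 * Real.sqrt N := by
  induction N with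
  | zero => simp
  | succ N ih =>
    rw [Finset.sum_Icc_succ_top (by omega)]
    have hN : (0 : ℝ) ≤ N := Nat.cast_nonneg _
    have h1 : (0 : ℝ) < Real.sqrt ((N + 1 : ℕ) : ℝ) := Real.sqrt_pos.2 (by positivity)
    have h2 : ((N + 1 : ℕ) : ℝ) ^ (-(1 / 2 : ℝ)) = 1 / Real.sqrt ((N + 1 : ℕ) : ℝ) := by
      rw [Real.rpow_neg (by positivity), ← Real.sqrt_eq_rpow, one_div]
    rw [h2]
    have h3 : 1 / Real.sqrt ((N + 1 : ℕ) : ℝ) ≤
        2 * Real.sqrt ((N + 1 : ℕ) : ℝ) - 2 * Real.sqrt N := by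
      rw [div_le_iff₀ h1]
      have h4 : Real.sqrt ((N + 1 : ℕ) : ℝ) * Real.sqrt ((N + 1 : ℕ) : ℝ) = N + 1 := by
        rw [Real.mul_self_sqrt (by positivity)]; push_cast; ring
      have h5 : Real.sqrt (N : ℝ) * Real.sqrt (N : ℝ) = N := Real.mul_self_sqrt hN
      nlinarith [sq_nonneg (Real.sqrt ((N + 1 : ℕ) : ℝ) - Real.sqrt (N : ℝ))]
    linarith

/-- an elementary bound on the critical line -/
lemma zeta_bound {T t : ℝ} (hT : 1000 < T) (ht0 : 0 ≤ t) (htT : t ≤ T) :
    ‖riemannZeta (1 / 2 + t * Complex.I)‖ ≤ 7 * Real.sqrt T := by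
  set s : ℂ := 1 / 2 + t * Complex.I with hs
  have hre : s.re = 1 / 2 := by simp [hs]
  have hre0 : 0 < s.re := by rw [hre]; norm_num
  have hs1 : s ≠ 1 := by
    intro h
    rw [h] at hre
    norm_num at hre
  set N : ℕ := ⌊T⌋₊ with hN
  have hNle : (N : ℝ) ≤ T := Nat.floor_le (by linarith)
  have hNge : T - 1 < N := Nat.sub_one_lt_floor T
  have hN1 : 1 ≤ N := by
    have : (1 : ℝ) < N := by linarith
    exact_mod_cast this.le
  have hN0 : (0 : ℝ) < N := by exact_mod_cast hN1
  have e0 := Pool.Agent.H307R2.zeta_eq hN1 hre0 hs1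
  have a1 : ‖∑ n ∈ Finset.Icc 1 N, (n : ℂ) ^ (-s)‖ ≤ 2 * Real.sqrt N := by
    refine (norm_sum_le _ _).trans (le_trans (Finset.sum_le_sum (fun n hn => ?_)) (sum_sqrt_le N))
    have hn0 : (0 : ℝ) < n := by exact_mod_cast (Finset.mem_Icc.1 hn).1
    have := Complex.norm_cpow_eq_rpow_re_of_pos hn0 (-s)
    rw [Complex.ofReal_natCast] at this
    rw [this, Complex.neg_re, hre]
  have a2 : ‖(N : ℂ) ^ (1 - s) / (s - 1)‖ ≤ 2 * Real.sqrt N := by
    have n1 : ‖(N : ℂ) ^ (1 - s)‖ = Real.sqrt N := by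
      have := Complex.norm_cpow_eq_rpow_re_of_pos hN0 (1 - s)
      rw [Complex.ofReal_natCast] at this
      rw [this, Complex.sub_re, Complex.one_re, hre, Real.sqrt_eq_rpow]
      norm_num
    have n2 : 1 / 2 ≤ ‖s - 1‖ := by
      have h3 := Complex.abs_re_le_norm (s - 1)
      rw [Complex.sub_re, Complex.one_re, hre] at h3
      norm_num at h3
      linarith
    rw [norm_div, n1, div_le_iff₀ (by linarith)]
    nlinarith [Real.sqrt_nonneg (N : ℝ)]
  have a3 : ‖s * Pool.Agent.H307R2.TM N Pool.Agent.H307R2.Ez s‖ ≤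
      (T + 1) * (2 / Real.sqrt N) := by
    rw [norm_mul]
    have n3 := Pool.Agent.H307R2.TM_norm_le hN1 Pool.Agent.H307R2.Ez_norm_le hre0
    rw [one_mul, hre, Real.rpow_neg hN0.le, ← Real.sqrt_eq_rpow] at n3
    have n4 : ‖s‖ ≤ T + 1 := by
      rw [hs]
      refine (norm_add_le _ _).trans ?_
      rw [norm_mul, Complex.norm_I, Complex.norm_real, Real.norm_of_nonneg ht0]
      norm_num
      linarith
    refine mul_le_mul n4 (n3.trans (le_of_eq ?_)) (norm_nonneg _) (by linarith)
    field_simp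
  have hsN : 0 < Real.sqrt N := Real.sqrt_pos.2 hN0
  have hsNT : Real.sqrt N ≤ Real.sqrt T := Real.sqrt_le_sqrt hNle
  have hsT : 0 < Real.sqrt T := Real.sqrt_pos.2 (by linarith)
  have hsT2 : Real.sqrt T * Real.sqrt T = T := Real.mul_self_sqrt (by linarith)
  have hsN2 : Real.sqrt N * Real.sqrt N = N := Real.mul_self_sqrt hN0.le
  have a4 : (T + 1) * (2 / Real.sqrt N) ≤ 3 * Real.sqrt T := by
    rw [mul_div_assoc', div_le_iff₀ hsN]
    -- (T+1)*2 ≤ 3 √T √N ; √T √N ≥ N ≥ T - 1
    have : (N : ℝ) ≤ Real.sqrt T * Real.sqrt N := by nlinarith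
    nlinarith
  calc ‖riemannZeta s‖ ≤ 2 * Real.sqrt N + 2 * Real.sqrt N + (T + 1) * (2 / Real.sqrt N) := by
        rw [e0]
        exact (norm_add_le _ _).trans (add_le_add ((norm_add_le _ _).trans (add_le_add a1 a2)) a3)
    _ ≤ 7 * Real.sqrt T := by linarith

lemma moment_bound {k T : ℝ} (hk : 0 ≤ k) (hT : 1000 < T) (h : 49 * T ≤ (Real.log T) ^ k) :
    ∫ t in (0:ℝ)..T, ‖riemannZeta (1 / 2 + t * Complex.I)‖ ^ (2 * k) ≤
      T * (Real.log T) ^ (k ^ 2) := by
  have hT0 : 0 < T := by linarith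
  have hlog : 0 < Real.log T := Real.log_pos (by linarith)
  have h1 := intervalIntegral.norm_integral_le_of_norm_le_const (a := 0) (b := T)
    (f := fun t : ℝ => ‖riemannZeta (1 / 2 + t * Complex.I)‖ ^ (2 * k))
    (C := (Real.log T) ^ (k ^ 2)) (by
      intro t ht
      rw [uIoc_of_le hT0.le] at ht
      have h2 := zeta_bound hT ht.1.le ht.2
      rw [Real.norm_of_nonneg (Real.rpow_nonneg (norm_nonneg _) _)]
      calc ‖riemannZeta (1 / 2 + t * Complex.I)‖ ^ (2 * k) ≤ (7 * Real.sqrt T) ^ (2 * k) :=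
            Real.rpow_le_rpow (norm_nonneg _) h2 (by linarith)
        _ = (49 * T) ^ k := by
            rw [Real.rpow_mul (by positivity)]
            congr 1
            rw [Real.rpow_two, mul_pow, Real.sq_sqrt hT0.le]
            norm_num
        _ ≤ ((Real.log T) ^ k) ^ k := Real.rpow_le_rpow (by positivity) h hk
        _ = (Real.log T) ^ (k ^ 2) := by
            rw [← Real.rpow_mul hlog.le]; congr 1; ring)
  rw [sub_zero, abs_of_pos hT0] at h1
  calc _ ≤ _ := le_trans (le_abs_self _) h1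
    _ = _ := by ring

/-- the range `T ≤ k^k` -/
lemma range {k T : ℝ} (hk : 7 ≤ k) (hT : 1000 < T) (h : T ≤ k ^ k) :
    49 * T ≤ (Real.log T) ^ k := by
  have hT0 : 0 < T := by linarith
  have hk0 : 0 < k := by linarith
  set L := Real.log T with hL
  have hLk : L ≤ k * Real.log k := by
    rw [hL, ← Real.log_rpow hk0]
    exact Real.log_le_log hT0 h
  have hL6 : 6.9 < L := by
    -- e^6.9 < 1000
    rw [hL, Real.lt_log_iff_exp_lt hT0]
    refine lt_of_lt_of_le ?_ hT.le
    have h1 : Real.exp 6.9 = Real.exp 1 ^ (7 : ℕ) * Real.exp (-0.1) := by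
      rw [← Real.exp_nat_mul, ← Real.exp_add]; norm_num
    have h2 : Real.exp 1 < 2.7182818286 := Real.exp_one_lt_d9
    have h3 : Real.exp (-0.1) ≤ 1 / 1.1 := by
      rw [Real.exp_neg, ← one_div]
      apply one_div_le_one_div_of_le (by norm_num)
      have := Real.add_one_le_exp (0.1 : ℝ)
      linarith
    have h4 : Real.exp 1 ^ (7 : ℕ) ≤ 2.7182818286 ^ (7 : ℕ) :=
      pow_le_pow_left₀ (Real.exp_pos _).le h2.le 7
    rw [h1]
    calc Real.exp 1 ^ (7 : ℕ) * Real.exp (-0.1) ≤ 2.7182818286 ^ (7 : ℕ) * (1 / 1.1) :=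
          mul_le_mul h4 h3 (Real.exp_pos _).le (by norm_num)
      _ < 1000 := by norm_num
  have hL0 : 0 < L := by linarith
  have hlog49 : Real.log 49 ≤ 3.9 := by
    rw [Real.log_le_iff_le_exp (by norm_num)]
    have h1 : Real.exp 3.9 = Real.exp 1 ^ (4 : ℕ) * Real.exp (-0.1) := by
      rw [← Real.exp_nat_mul, ← Real.exp_add]; norm_num
    have h2 : 2.7182818283 < Real.exp 1 := Real.exp_one_gt_d9
    have h3 : 0.9 ≤ Real.exp (-0.1) := by
      have := Real.add_one_le_exp (-0.1 : ℝ)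
      linarith
    have h4 : (2.7182818283 : ℝ) ^ (4 : ℕ) ≤ Real.exp 1 ^ (4 : ℕ) :=
      pow_le_pow_left₀ (by norm_num) h2.le 4
    rw [h1]
    calc (49 : ℝ) ≤ 2.7182818283 ^ (4 : ℕ) * 0.9 := by norm_num
      _ ≤ _ := mul_le_mul h4 h3 (by norm_num) (by positivity)
  have hmain : Real.log 49 + L ≤ k * Real.log L := by
    -- numeric facts
    have hlogL : 1.7 ≤ Real.log L := by
      rw [Real.le_log_iff_exp_le hL0]
      have h1 : Real.exp 1.7 = Real.exp 1 ^ (2 : ℕ) * Real.exp (-0.3) := by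
        rw [← Real.exp_nat_mul, ← Real.exp_add]; norm_num
      have h2 : Real.exp 1 < 2.7182818286 := Real.exp_one_lt_d9
      have h3 : Real.exp (-0.3) ≤ 1 / 1.3 := by
        rw [Real.exp_neg, ← one_div]
        apply one_div_le_one_div_of_le (by norm_num)
        have := Real.add_one_le_exp (0.3 : ℝ)
        linarith
      have h4 : Real.exp 1 ^ (2 : ℕ) ≤ 2.7182818286 ^ (2 : ℕ) :=
        pow_le_pow_left₀ (Real.exp_pos _).le h2.le 2
      rw [h1]
      calc Real.exp 1 ^ (2 : ℕ) * Real.exp (-0.3) ≤ 2.7182818286 ^ (2 : ℕ) * (1 / 1.3) :=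
            mul_le_mul h4 h3 (Real.exp_pos _).le (by norm_num)
        _ ≤ L := by norm_num at hL6 ⊢; linarith
    rcases le_total L k with hc | hc
    · have : L * Real.log L ≤ k * Real.log L := mul_le_mul_of_nonneg_right hc (by linarith)
      nlinarith
    · -- k ≤ L ≤ k log k
      have hlogk : 1.9 ≤ Real.log k := by
        rw [Real.le_log_iff_exp_le hk0]
        have h1 : Real.exp 1.9 = Real.exp 1 ^ (2 : ℕ) * Real.exp (-0.1) := by
          rw [← Real.exp_nat_mul, ← Real.exp_add]; norm_num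
        have h2 : Real.exp 1 < 2.7182818286 := Real.exp_one_lt_d9
        have h3 : Real.exp (-0.1) ≤ 1 / 1.1 := by
          rw [Real.exp_neg, ← one_div]
          apply one_div_le_one_div_of_le (by norm_num)
          have := Real.add_one_le_exp (0.1 : ℝ)
          linarith
        have h4 : Real.exp 1 ^ (2 : ℕ) ≤ 2.7182818286 ^ (2 : ℕ) :=
          pow_le_pow_left₀ (Real.exp_pos _).le h2.le 2
        rw [h1]
        calc Real.exp 1 ^ (2 : ℕ) * Real.exp (-0.1) ≤ 2.7182818286 ^ (2 : ℕ) * (1 / 1.1) :=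
              mul_le_mul h4 h3 (Real.exp_pos _).le (by norm_num)
          _ ≤ 7 := by norm_num
          _ ≤ k := hk
      have hllk : 0.56 ≤ Real.log (Real.log k) := by
        rw [Real.le_log_iff_exp_le (by linarith)]
        have h1 : Real.exp 0.56 = Real.exp 1 * Real.exp (-0.44) := by
          rw [← Real.exp_add]; norm_num
        have h2 : Real.exp 1 < 2.7182818286 := Real.exp_one_lt_d9
        have h3 : Real.exp (-0.44) ≤ 1 / 1.44 := by
          rw [Real.exp_neg, ← one_div]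
          apply one_div_le_one_div_of_le (by norm_num)
          have := Real.add_one_le_exp (0.44 : ℝ)
          linarith
        rw [h1]
        calc Real.exp 1 * Real.exp (-0.44) ≤ 2.7182818286 * (1 / 1.44) :=
              mul_le_mul h2.le h3 (Real.exp_pos _).le (by norm_num)
          _ ≤ 1.9 := by norm_num
          _ ≤ Real.log k := hlogk
      have h5 : Real.log (k * Real.log k) = Real.log k + Real.log (Real.log k) :=
        Real.log_mul (by linarith) (by linarith)
      have h6 : Real.log (k * Real.log k) - Real.log L ≤ (k * Real.log k - L) / L := by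
        rw [← Real.log_div (by nlinarith) hL0.ne']
        have := Real.log_le_sub_one_of_pos (show 0 < k * Real.log k / L by
          apply div_pos (by nlinarith) hL0)
        calc _ ≤ _ := this
          _ = _ := by field_simp
      have h7 : (k * Real.log k - L) / L ≤ (k * Real.log k - L) / k :=
        div_le_div_of_nonneg_left (by linarith) hk0 hc
      have h8 : k * (Real.log (k * Real.log k) - Real.log L) ≤ k * Real.log k - L := by
        have := h6.trans h7
        rw [le_div_iff₀ hk0] at this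
        linarith
      rw [h5] at h8
      nlinarith
  have h9 : Real.log (49 * T) ≤ Real.log (L ^ k) := by
    rw [Real.log_mul (by norm_num) hT0.ne', Real.log_rpow hL0]
    exact hmain
  exact (Real.log_le_log_iff (by positivity) (Real.rpow_pos_of_pos hL0 _)).1 h9

/-- Q2 of MP_3d0d30_nt in the initial range. -/
theorem result :
    ∀ k T : ℝ, 2 ≤ k → 1000 < T → (49 * T ≤ (Real.log T) ^ k ∨ (7 ≤ k ∧ T ≤ k ^ k)) →
      ∫ t in (0:ℝ)..T, ‖riemannZeta (1 / 2 + t * Complex.I)‖ ^ (2 * k) ≤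
        T * (Real.log T) ^ (k ^ 2) := by
  intro k T hk hT h
  rcases h with h | ⟨h7, h⟩
  · exact moment_bound (by linarith) hT h
  · exact moment_bound (by linarith) hT (range h7 hT h)

end Pool.Agent.Results.MP_3d0d30_nt.InitialRange
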